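import Pool.Agent.Y692.PS.Dr

/-!
# The disc over a complete discrete valuation ring (helper692, job PS-DISC)
-/

set_option autoImplicit false
set_option linter.all false

open FF Pool.Agent.Y157.PS

namespace Pool.Agent.Y692.PS

section

variable {k κ F : Type} [Field k] [Field κ] [Algebra k κ] [Field F] {V : ValuationSubring κ}
  {r : V →+* F}

/-- coefficientwise reduction -/
noncomputable def redE (k : Type) [Field k] [Algebra k κ] (r : V →+* F) : E0 k V →+* PowerSeries F where
  toFun P := PowerSeries.mk fun n => r ⟨PowerSeries.coeff n (P : PowerSeries κ), P.2.1 n⟩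
  map_one' := by
    refine PowerSeries.ext fun n => ?_
    rw [PowerSeries.coeff_mk, PowerSeries.coeff_one]
    have h1 : (⟨PowerSeries.coeff n ((1 : E0 k V) : PowerSeries κ), (1 : E0 k V).2.1 n⟩ : V) =
        if n = 0 then 1 else 0 := by
      apply Subtype.ext
      show PowerSeries.coeff n (1 : PowerSeries κ) = _
      rw [PowerSeries.coeff_one]
      split_ifs <;> rfl
    rw [h1]
    split_ifs
    · exact map_one r
    · exact map_zero r
  map_mul' P Q := by
    refine PowerSeries.ext fun n => ?_
    rw [PowerSeries.coeff_mk, PowerSeries.coeff_mul]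
    simp only [PowerSeries.coeff_mk, ← map_mul, ← map_sum]
    congr 1
    apply Subtype.ext
    rw [AddSubmonoidClass.coe_finsetSum]
    show PowerSeries.coeff n ((P : PowerSeries κ) * (Q : PowerSeries κ)) = _
    rw [PowerSeries.coeff_mul]
    rfl
  map_zero' := by
    refine PowerSeries.ext fun n => ?_
    rw [PowerSeries.coeff_mk, map_zero, ← map_zero r]
    congr 1
  map_add' P Q := by
    refine PowerSeries.ext fun n => ?_
    rw [PowerSeries.coeff_mk, map_add, PowerSeries.coeff_mk, PowerSeries.coeff_mk, ← map_add]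
    congr 1

theorem coeff_redE (P : E0 k V) (n : ℕ) : PowerSeries.coeff n (redE k r P) =
    r ⟨PowerSeries.coeff n (P : PowerSeries κ), P.2.1 n⟩ := by
  show PowerSeries.coeff n (PowerSeries.mk fun n =>
    r ⟨PowerSeries.coeff n (P : PowerSeries κ), P.2.1 n⟩) = _
  rw [PowerSeries.coeff_mk]

end

theorem disc : S_DR1 → S_DR2 → S_DR3 → S_DISC := by
  intro hD1 hD2 hD3 A k κ _ _ _ _ _ _ _ _ _ V hC F _ r hr ℓ _ hℓ
  haveI := hC.frac
  haveI := hC.char0
  haveI := hC.closure
  haveI : IsAlgClosed κ := IsAlgClosure.isAlgClosed k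
  haveI : Algebra.IsAlgebraic k κ := IsAlgClosure.isAlgebraic
  have hℓ0 : 0 < ℓ := (Fact.out : ℓ.Prime).pos
  have hr' : ∀ c : V, r c ≠ 0 ↔ IsU V (c : κ) := fun c => by
    rw [Ne, hr.ker, isU_iff V c.2]
  have hunit : ∀ U : E0 k V, IsU V (PowerSeries.coeff 0 (U : PowerSeries κ)) → IsUnit U := by
    intro U hU
    obtain ⟨⟨U', hU', he⟩, -⟩ := hD2 A k κ V hC U U.2 hU
    exact IsUnit.of_mul_eq_one ⟨U', hU'⟩ (Subtype.ext he)
  have hunit' : ∀ U : E0 k V, IsUnit U → IsU V (PowerSeries.coeff 0 (U : PowerSeries κ)) := by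
    intro U hU
    obtain ⟨U', he⟩ := isUnit_iff_exists_inv.1 hU
    have h1 : PowerSeries.coeff 0 (U : PowerSeries κ) * PowerSeries.coeff 0 (U' : PowerSeries κ) =
        1 := by
      rw [PowerSeries.coeff_zero_eq_constantCoeff_apply,
        PowerSeries.coeff_zero_eq_constantCoeff_apply, ← map_mul, ← Subring.coe_mul, he,
        Subring.coe_one, map_one]
    refine ⟨left_ne_zero_of_mul_eq_one h1, U.2.1 0, ?_⟩
    rw [inv_eq_of_mul_eq_one_right h1]
    exact U'.2.1 0
  let cV : V →+* E0 k V := RingHom.codRestrict (PowerSeries.C.comp V.subtype) (E0 k V)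
    (fun c => C_mem V c.2)
  have hcV : ∀ c : V, ((cV c : E0 k V) : PowerSeries κ) = PowerSeries.C (c : κ) := fun c => rfl
  let XE : E0 k V := ⟨PowerSeries.X, X_mem V⟩
  let h : DD ℓ V r (E0 k V) :=
    { cV := cV
      X := XE
      ρ0 := redE k r
      ρc := ?_
      ρX := ?_
      fac1 := ?_
      fac2 := ?_
      rootU := ?_
      ev := ?_
      unit := ?_
      rot := ?_ }
  · have hinj : Function.Injective ((algebraMap (E0 k V) (FractionRing (E0 k V))).comp cV) := by
      intro a b hab
      have h1 := IsFractionRing.injective (E0 k V) (FractionRing (E0 k V)) hab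
      have h2 := congrArg (fun P : E0 k V => PowerSeries.coeff 0 (P : PowerSeries κ)) h1
      apply Subtype.ext
      simpa [hcV] using h2
    letI : Algebra κ (FractionRing (E0 k V)) := (IsFractionRing.lift (A := V) (K := κ) hinj).toAlgebra
    refine h.disc_aux (FractionRing (E0 k V)) fun c => ?_
    exact IsFractionRing.lift_algebraMap (A := V) (K := κ) hinj c
  · intro c
    refine PowerSeries.ext fun n => ?_
    rw [coeff_redE, PowerSeries.coeff_C]
    have h1 : (⟨PowerSeries.coeff n ((cV c : E0 k V) : PowerSeries κ), (cV c).2.1 n⟩ : V) =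
        if n = 0 then c else 0 := by
      apply Subtype.ext
      show PowerSeries.coeff n (PowerSeries.C (c : κ)) = _
      rw [PowerSeries.coeff_C]
      split_ifs <;> rfl
    rw [h1]
    split_ifs
    · rfl
    · exact map_zero r
  · refine PowerSeries.ext fun n => ?_
    rw [coeff_redE]
    have h1 : (⟨PowerSeries.coeff n (XE : PowerSeries κ), XE.2.1 n⟩ : V) =
        if n = 1 then 1 else 0 := by
      apply Subtype.ext
      show PowerSeries.coeff n (PowerSeries.X : PowerSeries κ) = _
      rw [PowerSeries.coeff_X]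
      split_ifs <;> rfl
    rw [h1, PowerSeries.coeff_X]
    split_ifs
    · exact map_one r
    · exact map_zero r
  · intro a ha
    obtain ⟨c, hc, hc0, P', hP', he, n, hn⟩ := (hD1 A k κ V hC).1 a a.2
      (fun hh => ha (Subtype.ext hh))
    refine ⟨⟨c, hc⟩, ⟨P', hP'⟩, fun hh => hc0 (congrArg Subtype.val hh), Subtype.ext he, ?_⟩
    intro hh
    have h1 := congrArg (PowerSeries.coeff n) hh
    rw [coeff_redE, map_zero] at h1
    exact (hr' _).2 hn h1
  · intro a ha
    have h1 : ∃ n, IsU V (PowerSeries.coeff n (a : PowerSeries κ)) := by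
      by_contra hcon
      push Not at hcon
      apply ha
      refine PowerSeries.ext fun n => ?_
      rw [coeff_redE, map_zero]
      by_contra hne
      exact hcon n ((hr' _).1 hne)
    obtain ⟨s, hs, U, hU, hU0, he⟩ := (hD1 A k κ V hC).2 a a.2 h1
    refine ⟨s.pmap (fun p hp => (⟨p, non_mem V hp⟩ : V)) hs, ⟨U, hU⟩, ?_, hunit _ hU0, ?_⟩
    · intro p hp
      obtain ⟨q, hq, rfl⟩ := Multiset.mem_pmap.1 hp
      exact (hr.ker _).2 (hs q hq)
    · apply Subtype.ext
      rw [he, Subring.coe_mul]
      congr 1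
      rw [← Subring.subtype_apply, map_multiset_prod, Multiset.map_map, Multiset.map_pmap,
        ← Multiset.pmap_eq_map (fun p => p ∈ V.nonunits) _ s hs]
      congr 1
  · intro U hU
    obtain ⟨W, hW, he⟩ := (hD2 A k κ V hC U U.2 (hunit' U hU)).2 ℓ hℓ0 hℓ
    exact ⟨⟨W, hW⟩, Subtype.ext he⟩
  · intro p hp
    obtain ⟨e, he1, he2, he3, he4, he5⟩ := hD3 A k κ V hC p ((hr.ker p).1 hp)
    refine ⟨RingHom.codRestrict e V.toSubring he1, ?_, ?_, ?_⟩
    · intro c
      exact Subtype.ext (he3 c _)
    · exact Subtype.ext (he4 _)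
    · intro a ha
      obtain ⟨Q, hQ, hQe⟩ := he5 a (congrArg Subtype.val ha)
      exact ⟨⟨Q, hQ⟩, Subtype.ext hQe⟩
  · intro c d hc n hn
    apply hunit
    have h1 : PowerSeries.coeff 0 ((cV c + cV d * XE ^ n : E0 k V) : PowerSeries κ) = (c : κ) := by
      show PowerSeries.coeff 0 (PowerSeries.C (c : κ) + PowerSeries.C (d : κ) *
        (PowerSeries.X : PowerSeries κ) ^ n) = _
      rw [PowerSeries.coeff_zero_eq_constantCoeff_apply, map_add, map_mul, map_pow,
        PowerSeries.constantCoeff_X, zero_pow (by omega), mul_zero, add_zero,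
        PowerSeries.constantCoeff_C]
    rw [h1]
    obtain ⟨c', hc'⟩ := isUnit_iff_exists_inv.1 hc
    have h2 : (c : κ) * (c' : κ) = 1 := congrArg Subtype.val hc'
    refine ⟨left_ne_zero_of_mul_eq_one h2, c.2, ?_⟩
    rw [inv_eq_of_mul_eq_one_right h2]
    exact c'.2
  · intro ζ hζ
    have hζ' : (ζ : κ) ^ ℓ = 1 := congrArg Subtype.val hζ
    have hζ0 : (ζ : κ) ≠ 0 := by
      intro hh
      rw [hh, zero_pow hℓ0.ne'] at hζ'
      exact zero_ne_one hζ'
    have hζi : (ζ : κ)⁻¹ ∈ V := by
      have h1 : (ζ : κ)⁻¹ = (ζ : κ) ^ (ℓ - 1) := by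
        refine (eq_inv_of_mul_eq_one_left ?_).symm
        rw [← pow_succ, Nat.sub_add_cancel hℓ0, hζ']
      rw [h1]
      exact pow_mem ζ.2 _
    have hm : ∀ z : κ, z ∈ V → ∀ P ∈ E0 k V, PowerSeries.rescale z P ∈ E0 k V := by
      rintro z hz P ⟨hP, k', hk, hk'⟩
      haveI := hk
      haveI : FiniteDimensional k (IntermediateField.adjoin k {z}) :=
        IntermediateField.adjoin.finiteDimensional (Algebra.IsIntegral.isIntegral z)
      refine ⟨fun n => ?_, k' ⊔ IntermediateField.adjoin k {z},
        IntermediateField.finiteDimensional_sup k' _, fun n => ?_⟩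
      · rw [PowerSeries.coeff_rescale]
        exact mul_mem (pow_mem hz n) (hP n)
      · rw [PowerSeries.coeff_rescale]
        exact mul_mem (pow_mem ((le_sup_right : IntermediateField.adjoin k {z} ≤ _)
          (IntermediateField.mem_adjoin_simple_self k z)) n)
          ((le_sup_left : k' ≤ _) (hk' n))
    have hcomp : ∀ z w : κ, z * w = 1 → ∀ P : PowerSeries κ,
        PowerSeries.rescale z (PowerSeries.rescale w P) = P := by
      intro z w hzw P
      rw [PowerSeries.rescale_rescale, mul_comm, hzw, PowerSeries.rescale_one]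
      rfl
    let ι : E0 k V ≃+* E0 k V :=
      { toFun := fun P => ⟨PowerSeries.rescale (ζ : κ) P, hm _ ζ.2 _ P.2⟩
        invFun := fun P => ⟨PowerSeries.rescale (ζ : κ)⁻¹ P, hm _ hζi _ P.2⟩
        left_inv := fun P => Subtype.ext (hcomp _ _ (inv_mul_cancel₀ hζ0) _)
        right_inv := fun P => Subtype.ext (hcomp _ _ (mul_inv_cancel₀ hζ0) _)
        map_mul' := fun P Q => Subtype.ext (map_mul (PowerSeries.rescale (ζ : κ)) _ _)
        map_add' := fun P Q => Subtype.ext (map_add (PowerSeries.rescale (ζ : κ)) _ _) }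
    refine ⟨ι, ?_, ?_, ?_⟩
    · apply Subtype.ext
      show PowerSeries.rescale (ζ : κ) PowerSeries.X = PowerSeries.C (ζ : κ) * PowerSeries.X
      rw [PowerSeries.rescale_X]
    · intro c
      apply Subtype.ext
      show PowerSeries.rescale (ζ : κ) (PowerSeries.C (c : κ)) = PowerSeries.C (c : κ)
      refine PowerSeries.ext fun n => ?_
      rw [PowerSeries.coeff_rescale, PowerSeries.coeff_C]
      split_ifs with hn
      · rw [hn, pow_zero, one_mul]
      · rw [mul_zero]
    · intro a
      have h1 : redE k r (ι a) = PowerSeries.rescale (r ζ) (redE k r a) := by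
        refine PowerSeries.ext fun n => ?_
        rw [PowerSeries.coeff_rescale, coeff_redE, coeff_redE, ← map_pow, ← map_mul]
        congr 1
        apply Subtype.ext
        show PowerSeries.coeff n (PowerSeries.rescale (ζ : κ) (a : PowerSeries κ)) = _
        rw [PowerSeries.coeff_rescale]
        rfl
      have hrζ : r ζ ≠ 0 := by
        intro hh
        have h2 := congrArg r hζ
        rw [map_pow, hh, zero_pow hℓ0.ne', map_one] at h2
        exact zero_ne_one h2
      rw [h1]
      constructor
      · intro h2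
        refine PowerSeries.ext fun n => ?_
        have h3 := congrArg (PowerSeries.coeff n) h2
        rw [PowerSeries.coeff_rescale, map_zero] at h3
        rw [map_zero]
        exact (mul_eq_zero.1 h3).resolve_left (pow_ne_zero _ hrζ)
      · intro h2
        rw [h2, map_zero]

end Pool.Agent.Y692.PS
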