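import Pool.Agent.Y692.PS.Lft

/-!
# Inverses and roots in `E0` (helper692, job PS-DR)
-/

set_option autoImplicit false
set_option linter.all false

open Polynomial FF Pool.Agent.Y157.PS

namespace Pool.Agent.Y692.PS

section

variable {O : Type} [CommRing O]

theorem root_step (ℓ n : ℕ) (U W : PowerSeries O)
    (hu : IsUnit ((ℓ : O) * PowerSeries.coeff 0 W ^ (ℓ - 1)))
    (hW : (PowerSeries.X : PowerSeries O) ^ (n + 1) ∣ W ^ ℓ - U) :
    ∃ W' : PowerSeries O, PowerSeries.coeff 0 W' = PowerSeries.coeff 0 W ∧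
      (PowerSeries.X : PowerSeries O) ^ (n + 2) ∣ W' ^ ℓ - U := by
  have hS : IsUnit ((ℓ : PowerSeries O) * W ^ (ℓ - 1)) := by
    rw [PowerSeries.isUnit_iff_constantCoeff, map_mul, map_pow, map_natCast]
    rw [PowerSeries.coeff_zero_eq_constantCoeff_apply] at hu
    exact hu
  obtain ⟨T, hT⟩ := isUnit_iff_exists_inv.1 hS
  obtain ⟨g, hg⟩ := hW
  refine ⟨W - T * g * PowerSeries.X ^ (n + 1), ?_, ?_⟩
  · rw [map_sub, PowerSeries.coeff_zero_eq_constantCoeff_apply,
      PowerSeries.coeff_zero_eq_constantCoeff_apply, map_mul, map_pow,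
      PowerSeries.constantCoeff_X, zero_pow (by omega), mul_zero, sub_zero]
  · obtain ⟨k, hk⟩ := Polynomial.powAddExpansion W (-(T * g * PowerSeries.X ^ (n + 1))) ℓ
    rw [sub_eq_add_neg W, hk]
    have h1 : W ^ ℓ = U + PowerSeries.X ^ (n + 1) * g := by rw [← hg]; ring
    rw [h1]
    have h2 : U + PowerSeries.X ^ (n + 1) * g + (ℓ : PowerSeries O) * W ^ (ℓ - 1) *
        -(T * g * PowerSeries.X ^ (n + 1)) +
        k * (-(T * g * PowerSeries.X ^ (n + 1))) ^ 2 - U =
        PowerSeries.X ^ (n + 1) * g * (1 - (ℓ : PowerSeries O) * W ^ (ℓ - 1) * T) +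
        PowerSeries.X ^ (n + 2) * (PowerSeries.X ^ n * (k * (T * g) ^ 2)) := by
      ring
    rw [h2, hT, sub_self, mul_zero, zero_add]
    exact dvd_mul_right _ _

theorem root_uniq (ℓ n : ℕ) (U W W' : PowerSeries O) (w0 : O)
    (hu : IsUnit ((ℓ : O) * w0 ^ (ℓ - 1))) (h0 : PowerSeries.coeff 0 W = w0)
    (h0' : PowerSeries.coeff 0 W' = w0)
    (hW : (PowerSeries.X : PowerSeries O) ^ n ∣ W ^ ℓ - U)
    (hW' : (PowerSeries.X : PowerSeries O) ^ n ∣ W' ^ ℓ - U) :
    (PowerSeries.X : PowerSeries O) ^ n ∣ W - W' := by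
  have h1 : (PowerSeries.X : PowerSeries O) ^ n ∣ W ^ ℓ - W' ^ ℓ := by
    have := dvd_sub hW hW'
    rwa [sub_sub_sub_cancel_right] at this
  rw [← Commute.geom_sum₂_mul (Commute.all W W')] at h1
  have h2 : IsUnit (∑ i ∈ Finset.range ℓ, W ^ i * W' ^ (ℓ - 1 - i)) := by
    rw [PowerSeries.isUnit_iff_constantCoeff, map_sum]
    rw [PowerSeries.coeff_zero_eq_constantCoeff_apply] at h0 h0'
    have h3 : ∑ i ∈ Finset.range ℓ, PowerSeries.constantCoeff (W ^ i * W' ^ (ℓ - 1 - i)) =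
        (ℓ : O) * w0 ^ (ℓ - 1) := by
      rw [Finset.sum_congr rfl (g := fun _ => w0 ^ (ℓ - 1))]
      · rw [Finset.sum_const, Finset.card_range, nsmul_eq_mul]
      · intro i hi
        rw [map_mul, map_pow, map_pow, h0, h0', ← pow_add]
        congr 1
        have := Finset.mem_range.1 hi
        omega
    rw [h3]
    exact hu
  exact (IsUnit.dvd_mul_left h2).1 h1

/-- roots of power series -/
theorem root (ℓ : ℕ) (U : PowerSeries O) (w0 : O) (hw : w0 ^ ℓ = PowerSeries.coeff 0 U)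
    (hu : IsUnit ((ℓ : O) * w0 ^ (ℓ - 1))) : ∃ W : PowerSeries O, W ^ ℓ = U := by
  have h1 : ∀ n : ℕ, ∃ W : PowerSeries O, PowerSeries.coeff 0 W = w0 ∧
      (PowerSeries.X : PowerSeries O) ^ (n + 1) ∣ W ^ ℓ - U := by
    intro n
    induction n with
    | zero =>
      refine ⟨PowerSeries.C w0, ?_, ?_⟩
      · rw [PowerSeries.coeff_zero_eq_constantCoeff_apply, PowerSeries.constantCoeff_C]
      · rw [zero_add, pow_one, PowerSeries.X_dvd_iff, map_sub, map_pow,
          PowerSeries.constantCoeff_C, hw, PowerSeries.coeff_zero_eq_constantCoeff_apply, sub_self]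
    | succ n ih =>
      obtain ⟨W, hW, hW'⟩ := ih
      obtain ⟨W1, h1, h2⟩ := root_step ℓ n U W (by rw [hW]; exact hu) hW'
      exact ⟨W1, by rw [h1, hW], h2⟩
  choose W hW hW' using h1
  have h2 : ∀ n, (PowerSeries.X : PowerSeries O) ^ (n + 1) ∣
      PowerSeries.mk (fun m => PowerSeries.coeff m (W m)) - W n := by
    intro n
    rw [PowerSeries.X_pow_dvd_iff]
    intro m hm
    rw [map_sub, PowerSeries.coeff_mk, ← map_sub]
    have h3 := root_uniq ℓ (m + 1) U (W m) (W n) w0 hu (hW m) (hW n) (hW' m)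
      ((pow_dvd_pow _ (by omega)).trans (hW' n))
    exact (PowerSeries.X_pow_dvd_iff.1 h3) m (by omega)
  refine ⟨PowerSeries.mk (fun m => PowerSeries.coeff m (W m)), ?_⟩
  rw [← sub_eq_zero]
  refine PowerSeries.ext fun n => ?_
  have h3 : (PowerSeries.X : PowerSeries O) ^ (n + 1) ∣
      PowerSeries.mk (fun m => PowerSeries.coeff m (W m)) ^ ℓ - U := by
    have h4 := ((h2 n).trans (sub_dvd_pow_sub_pow _ _ ℓ)).trans (dvd_refl _)
    have h5 := dvd_add h4 (hW' n)
    rwa [sub_add_sub_cancel] at h5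
  rw [map_zero]
  exact (PowerSeries.X_pow_dvd_iff.1 h3) n (by omega)

end

theorem dr2 : S_DA → S_DR2 := by
  intro hDA A k κ _ _ _ _ _ _ _ _ _ V hC U hU hU0
  haveI := hC.frac
  haveI := hC.char0
  haveI := hC.closure
  haveI : IsAlgClosed κ := IsAlgClosure.isAlgClosed k
  haveI : Algebra.IsAlgebraic k κ := IsAlgClosure.isAlgebraic
  constructor
  · obtain ⟨k', hk, hl⟩ := lift_of_mem V hU
    haveI := hk
    obtain ⟨Q, hQ⟩ := hl k' le_rfl
    have h1 : IsUnit Q := by
      rw [PowerSeries.isUnit_iff_constantCoeff, ← PowerSeries.coeff_zero_eq_constantCoeff_apply,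
        isUnit_iff, ← PowerSeries.coeff_map, hQ]
      exact hU0
    obtain ⟨Q', hQ'⟩ := isUnit_iff_exists_inv.1 h1
    refine ⟨PowerSeries.map (io V k') Q', map_mem V k' _, ?_⟩
    rw [← hQ, ← map_mul, hQ', map_one]
  · intro ℓ hℓ hu
    obtain ⟨w0, hw0⟩ := IsAlgClosed.exists_pow_nat_eq (PowerSeries.coeff 0 U) hℓ
    have hw1 : IsU V w0 := by
      rw [← isU_pow_iff V hℓ.ne', hw0]; exact hU0
    obtain ⟨k', hk, hl⟩ := lift_of_mem V hU
    haveI := hk
    haveI : FiniteDimensional k (IntermediateField.adjoin k {w0}) :=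
      IntermediateField.adjoin.finiteDimensional (Algebra.IsIntegral.isIntegral w0)
    haveI : FiniteDimensional k (k' ⊔ IntermediateField.adjoin k {w0} : IntermediateField k κ) :=
      IntermediateField.finiteDimensional_sup k' _
    obtain ⟨Q, hQ⟩ := hl (k' ⊔ IntermediateField.adjoin k {w0}) le_sup_left
    obtain ⟨c, hc⟩ := io_lift V (k' ⊔ IntermediateField.adjoin k {w0}) hw1.2.1
      ((le_sup_right : IntermediateField.adjoin k {w0} ≤ _)
        (IntermediateField.mem_adjoin_simple_self k w0))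
    have hℓu : IsU V (ℓ : κ) := by
      obtain ⟨b, hb⟩ := isUnit_iff_exists_inv.1 hu
      have h2 : (ℓ : κ) * algebraMap A κ b = 1 := by
        rw [← map_natCast (algebraMap A κ), ← map_mul, hb, map_one]
      have h3 : ∀ a : A, algebraMap A κ a ∈ V := fun a => (hC.int _).2 isIntegral_algebraMap
      refine ⟨left_ne_zero_of_mul_eq_one h2, ?_, ?_⟩
      · rw [← map_natCast (algebraMap A κ)]; exact h3 _
      · rw [inv_eq_of_mul_eq_one_right h2]; exact h3 _
    have h4 : IsUnit ((ℓ : Ok V (k' ⊔ IntermediateField.adjoin k {w0})) * c ^ (ℓ - 1)) := by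
      rw [isUnit_iff, map_mul, map_pow, map_natCast, hc]
      refine isU_mul V hℓu ?_
      by_cases h5 : ℓ - 1 = 0
      · rw [h5, pow_zero]; exact isU_one V
      · exact (isU_pow_iff V h5).2 hw1
    obtain ⟨W, hW⟩ := root ℓ Q c (by
      apply io_inj V _
      rw [map_pow, hc, hw0, ← PowerSeries.coeff_map, hQ]) h4
    refine ⟨PowerSeries.map (io V _) W, map_mem V _ _, ?_⟩
    rw [← map_pow, hW, hQ]

end Pool.Agent.Y692.PS
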