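import Pool.Agent.Y692.PS.Lft

/-!
# Evaluation in `E0` (helper692, job PS-DR)
-/

set_option autoImplicit false
set_option linter.all false

open Polynomial FF Pool.Agent.Y157.PS

namespace Pool.Agent.Y692.PS

/-- division by `X - p` over a complete local ring -/
theorem wdiv {O : Type} [CommRing O] [IsLocalRing O]
    [IsAdicComplete (IsLocalRing.maximalIdeal O) O] (p : O)
    (hp : p ∈ IsLocalRing.maximalIdeal O) (P : PowerSeries O) :
    ∃ (v : O) (Q : PowerSeries O), P = PowerSeries.C v + (PowerSeries.X - PowerSeries.C p) * Q := by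
  have h1 : PowerSeries.map (IsLocalRing.residue O) (PowerSeries.X - PowerSeries.C p) =
      PowerSeries.X := by
    rw [map_sub, PowerSeries.map_X, PowerSeries.map_C, (IsLocalRing.residue_eq_zero_iff p).2 hp,
      map_zero, sub_zero]
  obtain ⟨q, r, hr, hq⟩ := PowerSeries.exists_isWeierstrassDivision (f := P)
    (g := PowerSeries.X - PowerSeries.C p) (by rw [h1]; exact PowerSeries.X_ne_zero)
  have h3 : ∀ Z : PowerSeries (IsLocalRing.ResidueField O), Z = PowerSeries.X →
      Z.order.toNat = 1 := by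
    rintro Z rfl
    rw [PowerSeries.order_X]
    rfl
  have h2 : (PowerSeries.map (Ideal.Quotient.mk (IsLocalRing.maximalIdeal O))
      (PowerSeries.X - PowerSeries.C p)).order.toNat = 1 := h3 _ h1
  rw [h2] at hr
  have h4 : r = C (r.coeff 0) := by
    apply eq_C_of_degree_le_zero
    exact Nat.WithBot.lt_one_iff_le_zero.1 (by simpa using hr)
  refine ⟨r.coeff 0, q, ?_⟩
  rw [hq, h4]
  simp only [coeff_C_zero, Polynomial.coe_C]
  ring

theorem wuniq {O : Type} [CommRing O] [IsLocalRing O]
    [IsHausdorff (IsLocalRing.maximalIdeal O) O] (p : O)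
    (hp : p ∈ IsLocalRing.maximalIdeal O) (v : O) (Q : PowerSeries O)
    (h : PowerSeries.C v = (PowerSeries.X - PowerSeries.C p) * Q) : v = 0 := by
  have h1 : ∀ n, PowerSeries.coeff n Q = p * PowerSeries.coeff (n + 1) Q := by
    intro n
    have h2 := congrArg (PowerSeries.coeff (n + 1)) h
    rw [PowerSeries.coeff_C, if_neg (by omega), sub_mul, map_sub, PowerSeries.coeff_C_mul,
      PowerSeries.coeff_succ_X_mul] at h2
    exact (sub_eq_zero.1 h2.symm)
  have h2 : v = - p * PowerSeries.coeff 0 Q := by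
    have h3 := congrArg (PowerSeries.coeff 0) h
    rw [PowerSeries.coeff_C, if_pos rfl, sub_mul, map_sub, PowerSeries.coeff_C_mul,
      PowerSeries.coeff_zero_X_mul] at h3
    rw [h3]; ring
  have h3 : ∀ n, PowerSeries.coeff 0 Q = p ^ n * PowerSeries.coeff n Q := by
    intro n
    induction n with
    | zero => rw [pow_zero, one_mul]
    | succ n ih => rw [ih, h1 n, pow_succ]; ring
  have h4 : PowerSeries.coeff 0 Q = 0 := by
    refine IsHausdorff.haus (I := IsLocalRing.maximalIdeal O) inferInstance _ fun n => ?_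
    rw [SModEq.zero, h3 n, smul_eq_mul, Ideal.mul_top]
    exact Ideal.mul_mem_right _ _ (Ideal.pow_mem_pow hp n)
  rw [h2, h4, mul_zero]

theorem dr3 : S_DA → S_DR3 := by
  intro hDA A k κ _ _ _ _ _ _ _ _ _ V hC p hp
  haveI := hC.frac
  haveI := hC.char0
  haveI := hC.closure
  haveI : IsAlgClosed κ := IsAlgClosure.isAlgClosed k
  haveI : Algebra.IsAlgebraic k κ := IsAlgClosure.isAlgebraic
  haveI hfp : FiniteDimensional k (IntermediateField.adjoin k {p}) :=
    IntermediateField.adjoin.finiteDimensional (Algebra.IsIntegral.isIntegral p)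
  -- existence
  have hex : ∀ P : E0 k V, ∃ v : κ, v ∈ V ∧ ∃ Q ∈ E0 k V,
      (P : PowerSeries κ) = PowerSeries.C v + (PowerSeries.X - PowerSeries.C p) * Q := by
    intro P
    obtain ⟨k', hk, hl⟩ := lift_of_mem V P.2
    haveI := hk
    haveI h0 : FiniteDimensional k (k' ⊔ IntermediateField.adjoin k {p} :
      IntermediateField k κ) := IntermediateField.finiteDimensional_sup k' _
    obtain ⟨P1, hP1⟩ := hl (k' ⊔ IntermediateField.adjoin k {p}) le_sup_left
    obtain ⟨p1, hp1⟩ := io_lift V (k' ⊔ IntermediateField.adjoin k {p}) (non_mem V hp)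
      ((le_sup_right : IntermediateField.adjoin k {p} ≤ _)
        (IntermediateField.mem_adjoin_simple_self k p))
    obtain ⟨h1, h2⟩ := hDA A k κ V hC _ h0
    obtain ⟨v, Q, hQ⟩ := wdiv p1 ((mem_max_iff V _ _).2 (by rw [hp1]; exact hp)) P1
    refine ⟨io V _ v, io_mem _ _ _, PowerSeries.map (io V _) Q, map_mem V _ _, ?_⟩
    rw [← hP1, hQ, map_add, map_mul, map_sub, PowerSeries.map_C, PowerSeries.map_C,
      PowerSeries.map_X, hp1]
  -- uniqueness
  have hun : ∀ v : κ, v ∈ V → ∀ Q ∈ E0 k V,
      PowerSeries.C v = (PowerSeries.X - PowerSeries.C p) * Q → v = 0 := by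
    intro v hv Q hQ h
    obtain ⟨k', hk, hl⟩ := lift_of_mem V hQ
    haveI := hk
    haveI hfv : FiniteDimensional k (IntermediateField.adjoin k {v}) :=
      IntermediateField.adjoin.finiteDimensional (Algebra.IsIntegral.isIntegral v)
    haveI h0 : FiniteDimensional k (k' ⊔ IntermediateField.adjoin k {p} :
      IntermediateField k κ) := IntermediateField.finiteDimensional_sup k' _
    haveI h0 : FiniteDimensional k (k' ⊔ IntermediateField.adjoin k {p} ⊔
      IntermediateField.adjoin k {v} : IntermediateField k κ) :=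
      IntermediateField.finiteDimensional_sup _ _
    obtain ⟨Q1, hQ1⟩ := hl (k' ⊔ IntermediateField.adjoin k {p} ⊔ IntermediateField.adjoin k {v})
      (le_sup_left.trans le_sup_left)
    obtain ⟨p1, hp1⟩ := io_lift V (k' ⊔ IntermediateField.adjoin k {p} ⊔
      IntermediateField.adjoin k {v}) (non_mem V hp)
      ((le_sup_right.trans le_sup_left : IntermediateField.adjoin k {p} ≤ _)
        (IntermediateField.mem_adjoin_simple_self k p))
    obtain ⟨v1, hv1⟩ := io_lift V (k' ⊔ IntermediateField.adjoin k {p} ⊔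
      IntermediateField.adjoin k {v}) hv
      ((le_sup_right : IntermediateField.adjoin k {v} ≤ _)
        (IntermediateField.mem_adjoin_simple_self k v))
    obtain ⟨h1, h2⟩ := hDA A k κ V hC _ h0
    have h3 := wuniq p1 ((mem_max_iff V _ _).2 (by rw [hp1]; exact hp)) v1 Q1 (by
      apply map_inj V _
      rw [map_mul, map_sub, PowerSeries.map_C, PowerSeries.map_C, PowerSeries.map_X, hp1, hv1,
        hQ1, h])
    rw [← hv1, h3, map_zero]
  choose ev hev Q hQ hPQ using hex
  have key : ∀ (P : E0 k V) (v : κ) (hv : v ∈ V) (Q' : PowerSeries κ) (hQ' : Q' ∈ E0 k V)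
      (h : (P : PowerSeries κ) = PowerSeries.C v + (PowerSeries.X - PowerSeries.C p) * Q'),
      ev P = v := by
    intro P v hv Q' hQ' h
    rw [← sub_eq_zero]
    refine hun _ (sub_mem (hev P) hv) (Q' - Q P) (sub_mem hQ' (hQ P)) ?_
    have h1 := hPQ P
    rw [h] at h1
    rw [map_sub]
    linear_combination -h1
  have hCm : ∀ c ∈ V, (PowerSeries.C c : PowerSeries κ) ∈ E0 k V := fun c hc => C_mem V hc
  have hXp : (PowerSeries.X - PowerSeries.C p : PowerSeries κ) ∈ E0 k V :=
    sub_mem (X_mem V) (hCm p (non_mem V hp))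
  refine ⟨⟨⟨⟨ev, ?_⟩, ?_⟩, ?_, ?_⟩, hev, ?_, ?_, ?_, ?_⟩
  · exact key 1 1 (one_mem _) 0 (zero_mem _) (by rw [mul_zero, add_zero, map_one]; rfl)
  · intro P P'
    refine key (P * P') _ (mul_mem (hev P) (hev P'))
      (PowerSeries.C (ev P) * Q P' + PowerSeries.C (ev P') * Q P +
        (PowerSeries.X - PowerSeries.C p) * (Q P * Q P')) ?_ ?_
    · exact add_mem (add_mem (mul_mem (hCm _ (hev P)) (hQ P')) (mul_mem (hCm _ (hev P')) (hQ P)))
        (mul_mem hXp (mul_mem (hQ P) (hQ P')))
    · rw [Subring.coe_mul, map_mul]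
      linear_combination hPQ P * (P' : PowerSeries κ) +
        (PowerSeries.C (ev P) + (PowerSeries.X - PowerSeries.C p) * Q P) * hPQ P'
  · exact key 0 0 (zero_mem _) 0 (zero_mem _) (by rw [mul_zero, add_zero, map_zero]; rfl)
  · intro P P'
    refine key (P + P') _ (add_mem (hev P) (hev P')) (Q P + Q P') (add_mem (hQ P) (hQ P')) ?_
    rw [Subring.coe_add, map_add]
    linear_combination hPQ P + hPQ P'
  · intro P
    show ev P - PowerSeries.coeff 0 (P : PowerSeries κ) ∈ V.nonunits
    have h1 : PowerSeries.coeff 0 (P : PowerSeries κ) = ev P - p * PowerSeries.coeff 0 (Q P) := by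
      conv_lhs => rw [hPQ P]
      rw [map_add, sub_mul, map_sub, PowerSeries.coeff_C_mul, PowerSeries.coeff_zero_X_mul,
        PowerSeries.coeff_C, if_pos rfl]
      ring
    rw [h1, sub_sub_cancel, mul_comm]
    exact mul_non V ((hQ P).1 0) hp
  · intro c hc
    have hc' : c ∈ V := by
      have := hc.1 0
      rwa [PowerSeries.coeff_C, if_pos rfl] at this
    exact key _ c hc' 0 (zero_mem _) (by rw [mul_zero, add_zero])
  · intro hX
    exact key _ p (non_mem V hp) 1 (one_mem _) (by rw [mul_one]; ring)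
  · intro P h
    refine ⟨Q P, hQ P, ?_⟩
    have h' : ev P = 0 := h
    conv_lhs => rw [hPQ P]
    rw [h', map_zero, zero_add]

end Pool.Agent.Y692.PS
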