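import Pool.Agent.Y692.PS.DR1
import Pool.Agent.Y692.PS.DR2
import Pool.Agent.Y692.PS.DR3

/-!
# The ring `E0` of bounded power series (helper692, job PS-DR)

`dr1 : S_DA → S_DB → S_DR1`, `dr2 : S_DA → S_DR2`, `dr3 : S_DA → S_DR3`.
-/
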