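import Pool.Agent.Y692.PS.Lft

/-!
# Factorisation in `E0` (helper692, job PS-DR)
-/

set_option autoImplicit false
set_option linter.all false

open Polynomial FF Pool.Agent.Y157.PS

namespace Pool.Agent.Y692.PS

section

variable {k κ : Type} [Field k] [Field κ] [Algebra k κ] (V : ValuationSubring κ)

theorem coeff_unit {O : Type} [CommRing O] [IsLocalRing O] (D : O[X]) (hD : D.Monic)
    (h : ∀ i < D.natDegree, D.coeff i ∈ IsLocalRing.maximalIdeal O) (U : PowerSeries O)
    (hU : IsUnit U) :
    IsUnit (PowerSeries.coeff D.natDegree ((D : PowerSeries O) * U)) := by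
  rw [← IsLocalRing.residue_ne_zero_iff_isUnit, ← PowerSeries.coeff_map, map_mul,
    ← Polynomial.polynomial_map_coe]
  have h1 : D.map (IsLocalRing.residue O) = X ^ D.natDegree := by
    ext i
    rw [coeff_map, coeff_X_pow]
    split_ifs with h2
    · rw [h2, hD.coeff_natDegree, map_one]
    · rcases lt_or_gt_of_ne h2 with h3 | h3
      · rw [IsLocalRing.residue_eq_zero_iff]; exact h i h3
      · rw [coeff_eq_zero_of_natDegree_lt h3, map_zero]
  rw [h1, Polynomial.coe_pow, Polynomial.coe_X, mul_comm]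
  have h4 := PowerSeries.coeff_mul_X_pow (PowerSeries.map (IsLocalRing.residue O) U) D.natDegree 0
  rw [zero_add] at h4
  rw [h4, PowerSeries.coeff_map, IsLocalRing.residue_ne_zero_iff_isUnit]
  rw [PowerSeries.coeff_zero_eq_constantCoeff_apply]
  exact (PowerSeries.isUnit_iff_constantCoeff.1 hU)

theorem root_non (D : κ[X]) (hD : D.Monic) (h : ∀ i < D.natDegree, D.coeff i ∈ V.nonunits) (p : κ)
    (hp : D.eval p = 0) : p ∈ V.nonunits := by
  by_contra hc
  rw [ValuationSubring.mem_nonunits_iff, not_lt] at hc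
  have h0 : p ≠ 0 := by
    rintro rfl
    rw [map_zero] at hc
    exact absurd hc (not_le.2 zero_lt_one)
  rw [eval_eq_sum_range, Finset.sum_range_succ, hD.coeff_natDegree, one_mul] at hp
  have h1 : V.valuation (∑ i ∈ Finset.range D.natDegree, D.coeff i * p ^ i) <
      V.valuation (p ^ D.natDegree) := by
    refine Valuation.map_sum_lt _ ((V.valuation.ne_zero_iff).2 (pow_ne_zero _ h0)) fun i hi => ?_
    have h2 := h i (Finset.mem_range.1 hi)
    rw [ValuationSubring.mem_nonunits_iff] at h2
    rw [map_mul, map_pow, map_pow]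
    have h3 : V.valuation p ^ i ≤ V.valuation p ^ D.natDegree :=
      pow_le_pow_right₀ hc (Finset.mem_range.1 hi).le
    have h4 : 0 < V.valuation p ^ i := pow_pos (lt_of_lt_of_le zero_lt_one hc) _
    calc V.valuation (D.coeff i) * V.valuation p ^ i < 1 * V.valuation p ^ i :=
          mul_lt_mul_of_pos_right h2 h4
      _ = V.valuation p ^ i := one_mul _
      _ ≤ _ := h3
  rw [eq_neg_of_add_eq_zero_left hp, Valuation.map_neg] at h1
  exact lt_irrefl _ h1

end

theorem dr1 : S_DA → S_DB → S_DR1 := by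
  intro hDA hDB A k κ _ _ _ _ _ _ _ _ _ V hC
  haveI := hC.frac
  haveI := hC.char0
  haveI := hC.closure
  haveI : IsAlgClosed κ := IsAlgClosure.isAlgClosed k
  haveI : Algebra.IsAlgebraic k κ := IsAlgClosure.isAlgebraic
  constructor
  · intro P hP hP0
    obtain ⟨k', hk, hl⟩ := lift_of_mem V hP
    haveI := hk
    obtain ⟨Q, hQ⟩ := hl k' le_rfl
    obtain ⟨h1, h2⟩ := hDA A k κ V hC k' hk
    have hQ0 : Q ≠ 0 := by
      rintro rfl
      exact hP0 (by rw [← hQ, map_zero])
    obtain ⟨c, D, U, hc0, hD, hD', hU, hQe⟩ := hDB (Ok V k') Q hQ0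
    refine ⟨io V k' c, io_mem _ _ _, ?_, PowerSeries.map (io V k') (D * U), map_mem V k' _, ?_,
      D.natDegree, ?_⟩
    · rw [Ne, ← map_zero (io V k')]
      exact fun h => hc0 (io_inj V k' h)
    · rw [← hQ, hQe, mul_assoc, map_mul, PowerSeries.map_C]
    · rw [PowerSeries.coeff_map]
      exact (isUnit_iff V k' _).1 (coeff_unit D hD hD' U hU)
  · intro P hP hP1
    obtain ⟨n, hn⟩ := hP1
    obtain ⟨k', hk, hl⟩ := lift_of_mem V hP
    haveI := hk
    obtain ⟨Q, hQ⟩ := hl k' le_rfl
    obtain ⟨h1, h2⟩ := hDA A k κ V hC k' hk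
    have hQ0 : Q ≠ 0 := by
      rintro rfl
      rw [← hQ, map_zero, map_zero] at hn
      exact hn.1 rfl
    obtain ⟨c, D, U, hc0, hD, hD', hU, hQe⟩ := hDB (Ok V k') Q hQ0
    have hc : IsU V (io V k' c) := by
      rw [← hQ, PowerSeries.coeff_map, hQe, mul_assoc, PowerSeries.coeff_C_mul, map_mul] at hn
      exact isU_of_mul V (io_mem _ _ _) (io_mem _ _ _) hn
    have hDn : ∀ i < (D.map (io V k')).natDegree, (D.map (io V k')).coeff i ∈ V.nonunits := by
      intro i hi
      rw [hD.natDegree_map] at hi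
      rw [coeff_map]
      exact (mem_max_iff V k' _).1 (hD' i hi)
    refine ⟨(D.map (io V k')).roots, ?_, PowerSeries.map (io V k') (PowerSeries.C c * U),
      map_mem V k' _, ?_, ?_⟩
    · intro p hp
      exact root_non V _ (hD.map _) hDn p (isRoot_of_mem_roots hp)
    · rw [PowerSeries.coeff_map, PowerSeries.coeff_C_mul, map_mul]
      refine isU_mul V hc ((isUnit_iff V k' _).1 ?_)
      rw [PowerSeries.coeff_zero_eq_constantCoeff_apply]
      exact PowerSeries.isUnit_iff_constantCoeff.1 hU
    · have h3 : ((D.map (io V k') : κ[X]) : PowerSeries κ) =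
          ((D.map (io V k')).roots.map fun p =>
            (PowerSeries.X : PowerSeries κ) - PowerSeries.C p).prod := by
        have h4 := (IsAlgClosed.splits (D.map (io V k'))).eq_prod_roots_of_monic (hD.map _)
        conv_lhs => rw [h4]
        rw [← Polynomial.coeToPowerSeries.ringHom_apply, map_multiset_prod, Multiset.map_map]
        congr 1
        refine Multiset.map_congr rfl fun p _ => ?_
        simp
      rw [← h3, ← hQ, hQe, map_mul, map_mul, map_mul, Polynomial.polynomial_map_coe]
      ring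

end Pool.Agent.Y692.PS
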