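import Pool.Agent.Y692.PS.Plc

/-!
# The disc from a ring with factorisation (helper692, job PS-DISC)
-/

set_option autoImplicit false
set_option linter.all false

open FF Pool.Agent.Y157.PS

namespace Pool.Agent.Y692.PS

/-- a ring which behaves like the ring of bounded power series -/
structure DD (ℓ : ℕ) {κ F : Type} [Field κ] [Field F] (V : ValuationSubring κ) (r : V →+* F)
    (D : Type) [CommRing D] [IsDomain D] where
  cV : V →+* D
  X : D
  ρ0 : D →+* PowerSeries F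
  ρc : ∀ c, ρ0 (cV c) = PowerSeries.C (r c)
  ρX : ρ0 X = PowerSeries.X
  fac1 : ∀ a : D, a ≠ 0 → ∃ (c : V) (a' : D), c ≠ 0 ∧ a = cV c * a' ∧ ρ0 a' ≠ 0
  fac2 : ∀ a : D, ρ0 a ≠ 0 → ∃ (s : Multiset V) (U : D), (∀ p ∈ s, r p = 0) ∧ IsUnit U ∧
    a = (s.map fun p => X - cV p).prod * U
  rootU : ∀ U : D, IsUnit U → ∃ W, W ^ ℓ = U
  ev : ∀ p : V, r p = 0 → ∃ e : D →+* V, (∀ c, e (cV c) = c) ∧ e X = p ∧
    ∀ a, e a = 0 → (X - cV p) ∣ a
  unit : ∀ c d : V, IsUnit c → ∀ n : ℕ, 1 ≤ n → IsUnit (cV c + cV d * X ^ n)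
  rot : ∀ ζ : V, ζ ^ ℓ = 1 → ∃ ι : D ≃+* D, ι X = cV ζ * X ∧ (∀ c, ι (cV c) = cV c) ∧
    ∀ a, ρ0 (ι a) = 0 ↔ ρ0 a = 0

namespace DD

variable {ℓ : ℕ} {κ F : Type} [Field κ] [Field F] {V : ValuationSubring κ} {r : V →+* F}
    {D : Type} [CommRing D] [IsDomain D] (h : DD ℓ V r D)

/-- the prime element of the point `p` -/
def pi (p : V) : D := h.X - h.cV p

theorem pi_ne (p : V) : h.pi p ≠ 0 := by
  intro h0
  have h1 := congrArg h.ρ0 h0
  rw [pi, map_sub, h.ρX, h.ρc, map_zero, sub_eq_zero] at h1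
  have h2 := congrArg (PowerSeries.coeff 1) h1
  rw [PowerSeries.coeff_one_X, PowerSeries.coeff_C, if_neg one_ne_zero] at h2
  exact one_ne_zero h2

theorem dvd_iff {p : V} (hp : r p = 0) : ∃ e : D →+* V, (∀ c, e (h.cV c) = c) ∧ e h.X = p ∧
    ∀ a, h.pi p ∣ a ↔ e a = 0 := by
  obtain ⟨e, h1, h2, h3⟩ := h.ev p hp
  refine ⟨e, h1, h2, fun a => ⟨?_, h3 a⟩⟩
  rintro ⟨b, rfl⟩
  rw [pi, map_mul, map_sub, h1, h2, sub_self, zero_mul]

theorem prime {p : V} (hp : r p = 0) : Prime (h.pi p) := by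
  obtain ⟨e, h1, h2, h3⟩ := h.dvd_iff hp
  refine ⟨h.pi_ne p, fun hu => ?_, fun a b hab => ?_⟩
  · have h4 := (h3 1).1 (hu.dvd)
    rw [map_one] at h4
    exact one_ne_zero h4
  · rw [h3, map_mul, mul_eq_zero] at hab
    rwa [h3, h3]

theorem mult_c {p : V} (hp : r p = 0) {c : V} (hc : c ≠ 0) : ¬ h.pi p ∣ h.cV c := by
  obtain ⟨e, h1, h2, h3⟩ := h.dvd_iff hp
  rw [h3, h1]
  exact hc

open Classical in
theorem emult_pi {p : V} (hp : r p = 0) (q : V) :
    emultiplicity (h.pi p) (h.pi q) = if p = q then 1 else 0 := by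
  split_ifs with hpq
  · subst hpq
    have h1 := emultiplicity_pow_self_of_prime (h.prime hp) 1
    rw [pow_one] at h1
    rw [h1, Nat.cast_one]
  · rw [emultiplicity_eq_zero]
    obtain ⟨e, h1, h2, h3⟩ := h.dvd_iff hp
    rw [h3, pi, map_sub, h1, h2, sub_eq_zero]
    exact hpq

open Classical in
theorem emult_prod {p : V} (hp : r p = 0) (s : Multiset V) :
    emultiplicity (h.pi p) (s.map h.pi).prod = (s.count p : ℕ) := by
  induction s using Multiset.induction_on with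
  | empty =>
    rw [Multiset.map_zero, Multiset.prod_zero, Multiset.count_zero, Nat.cast_zero,
      emultiplicity_eq_zero]
    exact fun hd => (h.prime hp).not_unit (isUnit_of_dvd_one hd)
  | cons q s ih =>
    rw [Multiset.map_cons, Multiset.prod_cons, emultiplicity_mul (h.prime hp), ih, h.emult_pi hp,
      Multiset.count_cons]
    split_ifs <;> push_cast <;> ring

open Classical in
/-- every nonzero element is a constant times a product of prime elements times a unit -/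
theorem fac (a : D) (ha : a ≠ 0) : ∃ (c : V) (s : Multiset V) (U : D), c ≠ 0 ∧
    (∀ p ∈ s, r p = 0) ∧ IsUnit U ∧ a = h.cV c * (s.map h.pi).prod * U ∧
    (∀ p : V, r p = 0 → FiniteMultiplicity (h.pi p) a ∧
      multiplicity (h.pi p) a = s.count p) := by
  obtain ⟨c, a', hc, ha', hρ⟩ := h.fac1 a ha
  obtain ⟨s, U, hs, hU, he⟩ := h.fac2 a' hρ
  have h1 : a = h.cV c * (s.map h.pi).prod * U := by
    rw [ha', he, mul_assoc]; rfl
  refine ⟨c, s, U, hc, hs, hU, h1, fun p hp => ?_⟩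
  have h2 : emultiplicity (h.pi p) a = (s.count p : ℕ) := by
    rw [h1, emultiplicity_mul (h.prime hp), emultiplicity_mul (h.prime hp), h.emult_prod hp,
      emultiplicity_eq_zero.2 (h.mult_c hp hc), emultiplicity_eq_zero.2 (fun hd =>
        (h.prime hp).not_unit (isUnit_of_dvd_unit hd hU)), zero_add, add_zero]
  exact ⟨finiteMultiplicity_of_emultiplicity_eq_natCast h2, multiplicity_eq_of_emultiplicity_eq_some h2⟩

theorem fin {p : V} (hp : r p = 0) (a : D) (ha : a ≠ 0) : FiniteMultiplicity (h.pi p) a := by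
  obtain ⟨_, _, _, _, _, _, _, h1⟩ := h.fac a ha
  exact (h1 p hp).1

section

variable (E : Type) [Field E] [Algebra D E] [IsFractionRing D E] [Algebra κ E]
  (hcomp : ∀ c : V, algebraMap κ E c = algebraMap D E (h.cV c))

include hcomp

theorem constE (c : κ) (hc : c ≠ 0) : ∃ x y : V, x ≠ 0 ∧ y ≠ 0 ∧ c = x / y ∧
    algebraMap κ E c = algebraMap D E (h.cV x) / algebraMap D E (h.cV y) := by
  rcases V.mem_or_inv_mem c with h1 | h1
  · refine ⟨⟨c, h1⟩, 1, ?_, one_ne_zero, ?_, ?_⟩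
    · intro h2; exact hc (congrArg Subtype.val h2)
    · simp
    · rw [map_one, map_one, div_one, ← hcomp]
  · refine ⟨1, ⟨c⁻¹, h1⟩, one_ne_zero, ?_, ?_, ?_⟩
    · intro h2; exact inv_ne_zero hc (congrArg Subtype.val h2)
    · simp
    · rw [map_one, map_one, one_div, ← hcomp]
      show _ = (algebraMap κ E c⁻¹)⁻¹
      rw [map_inv₀, inv_inv]

theorem exists_place {p : V} (hp : r p = 0) : ∃ P : Place κ E, ∀ a b : D, a ≠ 0 → b ≠ 0 →
      P.ord (algebraMap D E a / algebraMap D E b) =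
        (multiplicity (h.pi p) a : ℤ) - (multiplicity (h.pi p) b : ℤ) := by
  obtain ⟨e, h1, h2, h3⟩ := h.dvd_iff hp
  have hcv : ∀ x : V, x ≠ 0 → h.cV x ≠ 0 := by
    intro x hx h0
    have := h1 x
    rw [h0, map_zero] at this
    exact hx this.symm
  refine place_of_prime (h.pi p) (h.prime hp) (h.fin hp) fun c hc => ?_
  obtain ⟨x, y, hx, hy, _, he⟩ := h.constE E hcomp c hc
  exact ⟨h.cV x, h.cV y, hcv x hx, hcv y hy, h.mult_c hp hx, h.mult_c hp hy, he⟩

end

/-- the ring homomorphism to the Laurent series -/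
noncomputable def φ : D →+* LaurentSeries F := (HahnSeries.ofPowerSeries ℤ F).comp h.ρ0

theorem φ_eq {a : D} : h.φ a = 0 ↔ h.ρ0 a = 0 := by
  rw [φ, RingHom.comp_apply]
  constructor
  · intro h1
    exact HahnSeries.ofPowerSeries_injective (by rw [h1, map_zero])
  · intro h1; rw [h1, map_zero]

theorem cmul (a : D) (ha : a ≠ 0) : ∃ (c : V) (a' : D), c ≠ 0 ∧ a = h.cV c * a' ∧ h.φ a' ≠ 0 := by
  obtain ⟨c, a', h1, h2, h3⟩ := h.fac1 a ha
  exact ⟨c, a', h1, h2, fun h4 => h3 (h.φ_eq.1 h4)⟩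

section

variable (E : Type) [Field E] [Algebra D E] [IsFractionRing D E]

/-- the valuation ring of the disc -/
def OE : ValuationSubring E where
  carrier := {z | ∃ a b : D, h.φ b ≠ 0 ∧ z * algebraMap D E b = algebraMap D E a}
  mul_mem' := by
    rintro z w ⟨a, b, hb, hab⟩ ⟨c, d, hd, hcd⟩
    refine ⟨a * c, b * d, by rw [map_mul]; exact mul_ne_zero hb hd, ?_⟩
    rw [map_mul, map_mul, ← hab, ← hcd]; ring
  one_mem' := ⟨1, 1, by rw [map_one]; exact one_ne_zero, by rw [one_mul]⟩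
  add_mem' := by
    rintro z w ⟨a, b, hb, hab⟩ ⟨c, d, hd, hcd⟩
    refine ⟨a * d + c * b, b * d, by rw [map_mul]; exact mul_ne_zero hb hd, ?_⟩
    rw [map_mul, map_add, map_mul, map_mul, ← hab, ← hcd]; ring
  zero_mem' := ⟨0, 1, by rw [map_one]; exact one_ne_zero, by rw [zero_mul, map_zero]⟩
  neg_mem' := by
    rintro z ⟨a, b, hb, hab⟩
    exact ⟨-a, b, hb, by rw [map_neg, ← hab]; ring⟩
  mem_or_inv_mem' := by
    intro z
    have hinj : Function.Injective (algebraMap D E) := IsFractionRing.injective D E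
    have h0 : ∀ a : D, a ≠ 0 → algebraMap D E a ≠ 0 := fun a ha hh =>
      ha (hinj (by rw [hh, map_zero]))
    by_cases hz : z = 0
    · left
      exact ⟨0, 1, by rw [map_one]; exact one_ne_zero, by rw [hz, zero_mul, map_zero]⟩
    obtain ⟨a, b, hb, hab⟩ := IsFractionRing.div_surjective (A := D) z
    have hb0 : b ≠ 0 := nonZeroDivisors.ne_zero hb
    have ha0 : a ≠ 0 := by
      rintro rfl
      rw [map_zero, zero_div] at hab
      exact hz hab.symm
    obtain ⟨c, a', hc, ha', hρa⟩ := h.cmul a ha0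
    obtain ⟨d, b', hd, hb', hρb⟩ := h.cmul b hb0
    have ha'0 : a' ≠ 0 := by rintro rfl; exact hρa (map_zero _)
    have hb'0 : b' ≠ 0 := by rintro rfl; exact hρb (map_zero _)
    have hcv : ∀ x : V, x ≠ 0 → h.cV x ≠ 0 := by
      intro x hx hh
      rcases eq_or_ne x c with rfl | _
      · exact ha0 (by rw [ha', hh, zero_mul])
      · obtain ⟨e, h1, _, _⟩ := h.dvd_iff (p := 0) (map_zero r)
        have := h1 x
        rw [hh, map_zero] at this
        exact hx this.symm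
    have hc' : (c : κ) ≠ 0 := fun hh => hc (Subtype.ext hh)
    have hd' : (d : κ) ≠ 0 := fun hh => hd (Subtype.ext hh)
    rcases V.mem_or_inv_mem ((c : κ) / d) with h1 | h1
    · left
      obtain ⟨w, h2⟩ : ∃ w : V, c = w * d := ⟨⟨(c : κ) / d, h1⟩, Subtype.ext (by
        show (c : κ) = (c : κ) / d * d
        rw [div_mul_cancel₀ _ hd'])⟩
      refine ⟨h.cV w * a', b', hρb, ?_⟩
      rw [← hab, ha', hb', h2]
      simp only [map_mul]
      have e1 := h0 _ (hcv d hd)
      have e2 := h0 _ hb'0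
      field_simp
    · right
      rw [inv_div] at h1
      obtain ⟨w, h2⟩ : ∃ w : V, d = w * c := ⟨⟨(d : κ) / c, h1⟩, Subtype.ext (by
        show (d : κ) = (d : κ) / c * c
        rw [div_mul_cancel₀ _ hc'])⟩
      refine ⟨h.cV w * b', a', hρa, ?_⟩
      rw [← hab, ha', hb', h2]
      simp only [map_mul]
      have e1 := h0 _ (hcv c hc)
      have e2 := h0 _ ha'0
      field_simp

end

end DD

end Pool.Agent.Y692.PS
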