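import Pool.Agent.Y692.PS.Dd

/-!
# The disc from a ring with factorisation, 2 (helper692, job PS-DISC)
-/

set_option autoImplicit false
set_option linter.all false

open FF Pool.Agent.Y157.PS

namespace Pool.Agent.Y692.PS

namespace DD

variable {ℓ : ℕ} {κ F : Type} [Field κ] [Field F] {V : ValuationSubring κ} {r : V →+* F}
    {D : Type} [CommRing D] [IsDomain D] (h : DD ℓ V r D)
    (E : Type) [Field E] [Algebra D E] [IsFractionRing D E]

theorem mem_OE {z : E} : z ∈ h.OE E ↔
    ∃ a b : D, h.φ b ≠ 0 ∧ z * algebraMap D E b = algebraMap D E a := Iff.rfl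

/-- the residue map of the disc -/
theorem exists_ρ : ∃ ρ : h.OE E →+* LaurentSeries F, ∀ (z : h.OE E) (a b : D), h.φ b ≠ 0 →
    (z : E) * algebraMap D E b = algebraMap D E a → ρ z = h.φ a / h.φ b := by
  have hinj : Function.Injective (algebraMap D E) := IsFractionRing.injective D E
  have hwd : ∀ (z : E) (a b a' b' : D), h.φ b ≠ 0 → h.φ b' ≠ 0 →
      z * algebraMap D E b = algebraMap D E a → z * algebraMap D E b' = algebraMap D E a' →
      h.φ a / h.φ b = h.φ a' / h.φ b' := by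
    intro z a b a' b' hb hb' e1 e2
    rw [div_eq_div_iff hb hb', ← map_mul, ← map_mul]
    congr 1
    apply hinj
    rw [map_mul, map_mul, ← e1, ← e2]; ring
  choose nu de hde hz using fun z : h.OE E => (h.mem_OE E).1 z.2
  have key : ∀ (z : h.OE E) (a b : D), h.φ b ≠ 0 →
    (z : E) * algebraMap D E b = algebraMap D E a → h.φ (nu z) / h.φ (de z) = h.φ a / h.φ b :=
    fun z a b hb hab => hwd z _ _ _ _ (hde z) hb (hz z) hab
  refine ⟨⟨⟨⟨fun z => h.φ (nu z) / h.φ (de z), ?_⟩, ?_⟩, ?_, ?_⟩, key⟩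
  · rw [key 1 1 1 (by rw [map_one]; exact one_ne_zero) (by simp)]
    simp
  · intro z w
    show h.φ (nu (z * w)) / h.φ (de (z * w)) = h.φ (nu z) / h.φ (de z) * (h.φ (nu w) / h.φ (de w))
    rw [key (z * w) (nu z * nu w) (de z * de w) (by
      rw [map_mul]; exact mul_ne_zero (hde _) (hde _)) (by
      rw [map_mul, map_mul, ← hz z, ← hz w]
      show (z : E) * (w : E) * _ = _
      ring), map_mul, map_mul, div_mul_div_comm]
  · show h.φ (nu 0) / h.φ (de 0) = 0
    rw [key 0 0 1 (by rw [map_one]; exact one_ne_zero) (by simp)]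
    simp
  · intro z w
    show h.φ (nu (z + w)) / h.φ (de (z + w)) = h.φ (nu z) / h.φ (de z) + h.φ (nu w) / h.φ (de w)
    rw [key (z + w) (nu z * de w + nu w * de z) (de z * de w) (by
      rw [map_mul]; exact mul_ne_zero (hde _) (hde _)) (by
      rw [map_mul, map_add, map_mul, map_mul, ← hz z, ← hz w]
      show ((z : E) + (w : E)) * _ = _
      ring), map_mul, map_add, map_mul, map_mul, div_add_div _ _ (hde _) (hde _)]
    ring

variable [Algebra κ E]
  (hcomp : ∀ c : V, algebraMap κ E c = algebraMap D E (h.cV c))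

include hcomp in
theorem disc_aux [IsAlgClosed κ] [Fact ℓ.Prime] : Nonempty (Disc ℓ V r) := by
  classical
  have hinj : Function.Injective (algebraMap D E) := IsFractionRing.injective D E
  have h0 : ∀ a : D, a ≠ 0 → algebraMap D E a ≠ 0 := fun a ha hh =>
    ha (hinj (by rw [hh, map_zero]))
  have hℓ : 0 < ℓ := (Fact.out : ℓ.Prime).pos
  obtain ⟨ρ, hρ⟩ := h.exists_ρ E
  choose Pl hPl using fun p : {p : V // r p = 0} => h.exists_place E hcomp p.2
  have hfr : ∀ z : E, z ≠ 0 → ∃ a b : D, a ≠ 0 ∧ b ≠ 0 ∧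
      z = algebraMap D E a / algebraMap D E b := by
    intro z hz
    obtain ⟨a, b, hb, hab⟩ := IsFractionRing.div_surjective (A := D) z
    refine ⟨a, b, ?_, nonZeroDivisors.ne_zero hb, hab.symm⟩
    rintro rfl
    rw [map_zero, zero_div] at hab
    exact hz hab.symm
  have hφc : ∀ c : V, h.φ (h.cV c) = HahnSeries.C (r c) := by
    intro c
    rw [φ, RingHom.comp_apply, h.ρc, HahnSeries.ofPowerSeries_C]
  have h1φ : h.φ 1 ≠ 0 := by rw [map_one]; exact one_ne_zero
  have memV : ∀ c : κ, c ∈ V → algebraMap κ E c ∈ h.OE E := by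
    intro c hc
    exact ⟨h.cV ⟨c, hc⟩, 1, h1φ, by rw [map_one, mul_one]; exact hcomp ⟨c, hc⟩⟩
  have memu : algebraMap D E h.X ∈ h.OE E := ⟨h.X, 1, h1φ, by rw [map_one, mul_one]⟩
  have hXpi : h.pi 0 = h.X := by rw [pi, map_zero, sub_zero]
  refine ⟨{
    E := E
    u := algebraMap D E h.X
    O := h.OE E
    ρ := ρ
    ker := ?_
    memV := memV
    ρV := ?_
    memu := memu
    ρu := ?_
    pts := Set.range Pl
    P0 := Pl ⟨0, map_zero r⟩
    P0u := ?_
    root := ?_
    unit := ?_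
    rot := ?_ }⟩
  · intro z
    obtain ⟨a, b, hb, hab⟩ := z.2
    rw [hρ z a b hb hab, ValuationSubring.mem_nonunits_iff_or]
    constructor
    · intro h1
      by_cases hz : (z : E) = 0
      · exact Or.inl hz
      right
      intro h2
      obtain ⟨c, d, hd, hcd⟩ := (h.mem_OE E).1 h2
      have h3 := (div_eq_zero_iff.1 h1).resolve_right hb
      have h4 : b * d = a * c := by
        apply hinj
        rw [map_mul, map_mul, ← hab, ← hcd]
        field_simp
      have h5 := congrArg h.φ h4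
      rw [map_mul, map_mul, h3, zero_mul] at h5
      exact mul_ne_zero hb hd h5
    · intro h1
      by_contra h2
      have h3 : h.φ a ≠ 0 := fun h3 => h2 (by rw [h3, zero_div])
      rcases h1 with h1 | h1
      · rw [h1, zero_mul] at hab
        have : a = 0 := hinj (by rw [← hab, map_zero])
        rw [this, map_zero] at h3
        exact h3 rfl
      · apply h1
        refine ⟨b, a, h3, ?_⟩
        rw [← hab]
        have hz : (z : E) ≠ 0 := by
          intro hz
          rw [hz, zero_mul] at hab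
          have : a = 0 := hinj (by rw [← hab, map_zero])
          rw [this, map_zero] at h3
          exact h3 rfl
        field_simp
  · intro c hc
    rw [hρ _ (h.cV ⟨c, hc⟩) 1 h1φ (by rw [map_one, mul_one]; exact hcomp ⟨c, hc⟩), map_one,
      div_one, hφc]
  · rw [hρ _ h.X 1 h1φ (by rw [map_one, mul_one]), map_one, div_one, φ, RingHom.comp_apply, h.ρX,
      HahnSeries.ofPowerSeries_X]
  · have h1 := hPl ⟨0, map_zero r⟩ (h.pi 0) 1 (h.pi_ne 0) one_ne_zero
    rw [map_one, div_one, multiplicity_self, multiplicity_eq_zero.2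
      (fun hd => (h.prime (map_zero r)).not_unit (isUnit_of_dvd_one hd)), hXpi] at h1
    rw [h1]
    simp
  · intro g hg hdv
    obtain ⟨a, b, ha, hb, rfl⟩ := hfr g hg
    obtain ⟨ca, s, Ua, hca, hs, hUa, hea, hma⟩ := h.fac a ha
    obtain ⟨cb, t, Ub, hcb, ht, hUb, heb, hmb⟩ := h.fac b hb
    obtain ⟨Wa, hWa⟩ := h.rootU Ua hUa
    obtain ⟨Wb, hWb⟩ := h.rootU Ub hUb
    have hcb' : (cb : κ) ≠ 0 := fun hh => hcb (Subtype.ext hh)
    obtain ⟨γ, hγ⟩ := IsAlgClosed.exists_pow_nat_eq ((ca : κ) / cb) hℓ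
    have hdvd : ∀ p : V, ∃ n : ℤ, (s.count p : ℤ) - (t.count p : ℤ) = ℓ * n := by
      intro p
      by_cases hp : r p = 0
      · have h1 := hdv _ ⟨⟨p, hp⟩, rfl⟩
        rw [hPl ⟨p, hp⟩ a b ha hb, (hma p hp).2, (hmb p hp).2] at h1
        exact h1
      · have h1 : s.count p = 0 := Multiset.count_eq_zero.2 fun hh => hp (hs p hh)
        have h2 : t.count p = 0 := Multiset.count_eq_zero.2 fun hh => hp (ht p hh)
        exact ⟨0, by rw [h1, h2]; simp⟩
    choose n hn using hdvd
    refine ⟨algebraMap κ E γ * (∏ p ∈ s.toFinset ∪ t.toFinset, algebraMap D E (h.pi p) ^ n p) *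
      (algebraMap D E Wa / algebraMap D E Wb), ?_⟩
    have hprod : ∀ w : Multiset V, w.toFinset ⊆ s.toFinset ∪ t.toFinset →
        algebraMap D E (w.map h.pi).prod =
          ∏ p ∈ s.toFinset ∪ t.toFinset, algebraMap D E (h.pi p) ^ (w.count p : ℤ) := by
      intro w hw
      rw [Finset.prod_multiset_map_count, map_prod]
      rw [Finset.prod_subset hw]
      · refine Finset.prod_congr rfl fun p _ => ?_
        rw [map_pow, zpow_natCast]
      · intro p _ hp
        rw [Multiset.mem_toFinset] at hp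
        rw [Multiset.count_eq_zero.2 hp, pow_zero, map_one]
    have hWb0 : algebraMap D E Wb ≠ 0 := by
      intro hh
      have : algebraMap D E Ub = 0 := by rw [← hWb, map_pow, hh, zero_pow hℓ.ne']
      have h2 : Ub = 0 := hinj (by rw [this, map_zero])
      rw [heb, h2, mul_zero] at hb
      exact hb rfl
    have hcbE : algebraMap D E (h.cV cb) ≠ 0 := by
      rw [← hcomp]
      exact (map_ne_zero _).2 hcb'
    have e1 : algebraMap κ E γ ^ ℓ = algebraMap D E (h.cV ca) / algebraMap D E (h.cV cb) := by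
      rw [← map_pow, hγ, map_div₀, hcomp, hcomp]
    have hPt : ∏ p ∈ s.toFinset ∪ t.toFinset, algebraMap D E (h.pi p) ^ (t.count p : ℤ) ≠ 0 :=
      Finset.prod_ne_zero_iff.2 fun p _ => zpow_ne_zero _ (h0 _ (h.pi_ne p))
    have e2 : (∏ p ∈ s.toFinset ∪ t.toFinset, algebraMap D E (h.pi p) ^ n p) ^ ℓ =
        (∏ p ∈ s.toFinset ∪ t.toFinset, algebraMap D E (h.pi p) ^ (s.count p : ℤ)) /
        ∏ p ∈ s.toFinset ∪ t.toFinset, algebraMap D E (h.pi p) ^ (t.count p : ℤ) := by
      rw [← Finset.prod_pow, ← Finset.prod_div_distrib]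
      refine Finset.prod_congr rfl fun p _ => ?_
      rw [← zpow_natCast, ← zpow_mul, ← zpow_sub₀ (h0 _ (h.pi_ne p)), hn p]
      congr 1
      ring
    rw [mul_pow, mul_pow, e1, e2, div_pow, ← map_pow, ← map_pow, hWa, hWb, hea, heb, map_mul,
      map_mul, map_mul, map_mul, hprod s Finset.subset_union_left,
      hprod t Finset.subset_union_right]
    have hUb0 : algebraMap D E Ub ≠ 0 := by
      rw [← hWb, map_pow]; exact pow_ne_zero _ hWb0
    field_simp
  · rintro P ⟨⟨p, hp⟩, rfl⟩ c d hc hd n hn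
    have hcu : IsUnit (⟨c, hc.2.1⟩ : V) := by
      refine IsUnit.of_mul_eq_one ⟨c⁻¹, hc.2.2⟩ (Subtype.ext ?_)
      show c * c⁻¹ = 1
      exact mul_inv_cancel₀ hc.1
    have hU := h.unit ⟨c, hc.2.1⟩ ⟨d, hd⟩ hcu n hn
    have h1 := hPl ⟨p, hp⟩ _ 1 hU.ne_zero one_ne_zero
    rw [map_one, div_one, multiplicity_eq_zero.2
      (fun hd => (h.prime hp).not_unit (isUnit_of_dvd_one hd)), multiplicity_eq_zero.2
      (fun hd => (h.prime hp).not_unit (isUnit_of_dvd_unit hd hU)), map_add, map_mul, map_pow,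
      ← hcomp, ← hcomp] at h1
    rw [h1]
    simp
  · intro ζ hζ
    have hζV : ζ ∈ V := ((isU_pow_iff V hℓ.ne').1 (by rw [hζ]; exact isU_one V)).2.1
    obtain ⟨ι, h1, h2, h3⟩ := h.rot ⟨ζ, hζV⟩ (Subtype.ext hζ)
    let ιE : E ≃+* E := IsFractionRing.ringEquivOfRingEquiv (K := E) (L := E) ι
    have hι : ∀ a : D, ιE (algebraMap D E a) = algebraMap D E (ι a) := fun a =>
      IsFractionRing.ringEquivOfRingEquiv_algebraMap ι a
    have hι' : ∀ a : D, ιE.symm (algebraMap D E a) = algebraMap D E (ι.symm a) := fun a => by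
      rw [RingEquiv.symm_apply_eq, hι, RingEquiv.apply_symm_apply]
    have hφι : ∀ a : D, h.φ (ι a) = 0 ↔ h.φ a = 0 := fun a => by
      rw [h.φ_eq, h.φ_eq, h3]
    have hconst : ∀ c : κ, ιE (algebraMap κ E c) = algebraMap κ E c := by
      intro c
      by_cases hc : c = 0
      · rw [hc, map_zero, map_zero]
      obtain ⟨x, y, hx, hy, _, he⟩ := h.constE E hcomp c hc
      rw [he, map_div₀, hι, hι, h2, h2]
    refine ⟨AlgEquiv.ofRingEquiv (f := ιE) hconst, ?_, ?_, ?_⟩
    · show ιE (algebraMap D E h.X) = _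
      rw [hι, h1, map_mul, ← hcomp]
    · intro z
      show ιE z ∈ h.OE E ↔ z ∈ h.OE E
      rw [h.mem_OE, h.mem_OE]
      constructor
      · rintro ⟨a, b, hb, hab⟩
        refine ⟨ι.symm a, ι.symm b, ?_, ?_⟩
        · rw [Ne, ← hφι, RingEquiv.apply_symm_apply]; exact hb
        · rw [← hι', ← hι', ← hab, map_mul, RingEquiv.symm_apply_apply]
      · rintro ⟨a, b, hb, hab⟩
        refine ⟨ι a, ι b, ?_, ?_⟩
        · rw [Ne, hφι]; exact hb
        · rw [← hι, ← hι, ← hab, map_mul]
    · intro z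
      show (Pl ⟨0, map_zero r⟩).ord (ιE z) = _
      by_cases hz : z = 0
      · rw [hz, map_zero]
      obtain ⟨a, b, ha, hb, rfl⟩ := hfr z hz
      have hζu : IsUnit (h.cV ⟨ζ, hζV⟩) := by
        refine IsUnit.of_mul_eq_one (h.cV ⟨ζ, hζV⟩ ^ (ℓ - 1)) ?_
        rw [← pow_succ', Nat.sub_add_cancel hℓ, ← map_pow]
        have : (⟨ζ, hζV⟩ : V) ^ ℓ = 1 := Subtype.ext hζ
        rw [this, map_one]
      have hm : ∀ a : D, multiplicity (h.pi 0) (ι a) = multiplicity (h.pi 0) a := by
        intro a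
        rw [hXpi, ← multiplicity_map_eq ι (a := h.X) (b := a), h1]
        apply multiplicity_eq_of_associated_left
        obtain ⟨u, hu⟩ := hζu
        refine Associated.symm ?_
        exact ⟨u, by rw [hu, mul_comm]⟩
      rw [map_div₀, hι, hι, hPl _ _ _ ((map_ne_zero_iff ι ι.injective).2 ha)
        ((map_ne_zero_iff ι ι.injective).2 hb), hPl _ _ _ ha hb, hm, hm]

end DD

end Pool.Agent.Y692.PS
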