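import Pool.Agent.Y157.PS.Stm2

/-!
# Power series over `V` with coefficients in a finite extension (helper692, jobs PS-DR, PS-DISC)
-/

set_option autoImplicit false
set_option linter.all false

open Polynomial FF Pool.Agent.Y157.PS

namespace Pool.Agent.Y692.PS

section

variable {k κ : Type} [Field k] [Field κ] [Algebra k κ] (V : ValuationSubring κ)
  (k' : IntermediateField k κ)

/-- the valuation ring of an intermediate field -/
abbrev Ok : ValuationSubring k' := V.comap (algebraMap k' κ)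

/-- its embedding in `κ` -/
def io : Ok V k' →+* κ := (algebraMap k' κ).comp (Ok V k').subtype

theorem io_mem (z : Ok V k') : io V k' z ∈ V := z.2

theorem io_mem' (z : Ok V k') : io V k' z ∈ k' := z.1.2

theorem io_inj : Function.Injective (io V k') := by
  intro a b h
  apply Subtype.ext
  apply Subtype.ext
  exact h

theorem io_lift {c : κ} (h1 : c ∈ V) (h2 : c ∈ k') : ∃ z : Ok V k', io V k' z = c :=
  ⟨⟨⟨c, h2⟩, h1⟩, rfl⟩

theorem isUnit_iff (z : Ok V k') : IsUnit z ↔ IsU V (io V k' z) := by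
  constructor
  · intro h
    obtain ⟨u, hu⟩ := h
    have h1 : io V k' z * io V k' (u⁻¹ : (Ok V k')ˣ) = 1 := by
      rw [← hu, ← map_mul, Units.mul_inv, map_one]
    refine ⟨left_ne_zero_of_mul_eq_one h1, io_mem _ _ _, ?_⟩
    rw [inv_eq_of_mul_eq_one_right h1]
    exact io_mem _ _ _
  · rintro ⟨h0, h1, h2⟩
    have h3 : (io V k' z)⁻¹ ∈ k' := inv_mem (io_mem' V k' z)
    obtain ⟨w, hw⟩ := io_lift V k' h2 h3
    refine IsUnit.of_mul_eq_one w ?_
    apply io_inj V k'
    rw [map_mul, hw, map_one, mul_inv_cancel₀ h0]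

theorem isU_iff {c : κ} (hc : c ∈ V) : IsU V c ↔ c ∉ V.nonunits := by
  constructor
  · rintro ⟨h0, h1, h2⟩ h3
    rw [ValuationSubring.mem_nonunits_iff] at h3
    have h4 : V.valuation c⁻¹ ≤ 1 := (V.valuation_le_one_iff _).2 h2
    have h5 : V.valuation (c * c⁻¹) < 1 := by
      rw [map_mul]
      exact mul_lt_one_of_nonneg_of_lt_one_left zero_le' h3 h4
    rw [mul_inv_cancel₀ h0, map_one] at h5
    exact lt_irrefl _ h5
  · intro h
    rw [ValuationSubring.mem_nonunits_iff] at h
    have h1 : V.valuation c = 1 := le_antisymm ((V.valuation_le_one_iff _).2 hc) (not_lt.1 h)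
    have h0 : c ≠ 0 := by
      rintro rfl
      rw [map_zero] at h1
      exact zero_ne_one h1
    refine ⟨h0, hc, ?_⟩
    rw [← V.valuation_le_one_iff, map_inv₀, h1, inv_one]

theorem non_mem {c : κ} (hc : c ∈ V.nonunits) : c ∈ V := by
  rw [ValuationSubring.mem_nonunits_iff] at hc
  exact (V.valuation_le_one_iff _).1 hc.le

theorem non_not {c : κ} (hc : c ∈ V.nonunits) (h : IsU V c) : False :=
  (isU_iff V (non_mem V hc)).1 h hc

theorem non_or {c : κ} (hc : c ∈ V) : IsU V c ∨ c ∈ V.nonunits := by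
  by_cases h : c ∈ V.nonunits
  · exact Or.inr h
  · exact Or.inl ((isU_iff V hc).2 h)

theorem mul_non {c d : κ} (hc : c ∈ V) (hd : d ∈ V.nonunits) : c * d ∈ V.nonunits := by
  rw [ValuationSubring.mem_nonunits_iff] at hd ⊢
  rw [map_mul]
  have h1 : V.valuation c ≤ 1 := (V.valuation_le_one_iff _).2 hc
  calc V.valuation c * V.valuation d ≤ 1 * V.valuation d := mul_le_mul_left h1 _
    _ < 1 := by rwa [one_mul]

theorem add_non {c d : κ} (hc : c ∈ V.nonunits) (hd : d ∈ V.nonunits) : c + d ∈ V.nonunits := by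
  rw [ValuationSubring.mem_nonunits_iff] at hc hd ⊢
  exact (V.valuation.map_add c d).trans_lt (max_lt hc hd)

theorem neg_non {c : κ} (hc : c ∈ V.nonunits) : -c ∈ V.nonunits := by
  rw [ValuationSubring.mem_nonunits_iff] at hc ⊢
  rwa [Valuation.map_neg]

theorem zero_non : (0 : κ) ∈ V.nonunits := by
  rw [ValuationSubring.mem_nonunits_iff, map_zero]; exact zero_lt_one

theorem isU_mul {c d : κ} (hc : IsU V c) (hd : IsU V d) : IsU V (c * d) :=
  ⟨mul_ne_zero hc.1 hd.1, mul_mem hc.2.1 hd.2.1, by rw [mul_inv]; exact mul_mem hc.2.2 hd.2.2⟩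

theorem isU_one : IsU V (1 : κ) := ⟨one_ne_zero, one_mem _, by rw [inv_one]; exact one_mem _⟩

theorem isU_inv {c : κ} (hc : IsU V c) : IsU V c⁻¹ :=
  ⟨inv_ne_zero hc.1, hc.2.2, by rw [inv_inv]; exact hc.2.1⟩

theorem isU_of_mul {c d : κ} (hc : c ∈ V) (hd : d ∈ V) (h : IsU V (c * d)) : IsU V c := by
  rcases non_or V hc with h1 | h1
  · exact h1
  · exfalso
    refine non_not V (mul_non V hd h1) ?_
    rwa [mul_comm]

theorem isU_add {c d : κ} (hc : IsU V c) (hd : d ∈ V.nonunits) : IsU V (c + d) := by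
  rcases non_or V (add_mem hc.2.1 (non_mem V hd)) with h1 | h1
  · exact h1
  · exfalso
    refine non_not V (?_ : c ∈ V.nonunits) hc
    have h2 := add_non V h1 (neg_non V hd)
    rwa [add_neg_cancel_right] at h2

theorem isU_pow_iff {c : κ} {n : ℕ} (hn : n ≠ 0) : IsU V (c ^ n) ↔ IsU V c := by
  unfold IsU
  rw [← V.valuation_le_one_iff, ← V.valuation_le_one_iff, ← V.valuation_le_one_iff,
    ← V.valuation_le_one_iff, ← inv_pow, map_pow, map_pow, pow_le_one_iff hn, pow_le_one_iff hn]
  simp [hn]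

theorem mem_max_iff (z : Ok V k') :
    z ∈ IsLocalRing.maximalIdeal (Ok V k') ↔ io V k' z ∈ V.nonunits := by
  rw [IsLocalRing.mem_maximalIdeal, mem_nonunits_iff, isUnit_iff, isU_iff V (io_mem V k' z),
    not_not]

/-- the image of a power series -/
theorem map_mem [FiniteDimensional k k'] (P : PowerSeries (Ok V k')) :
    PowerSeries.map (io V k') P ∈ E0 k V := by
  refine ⟨fun n => ?_, k', inferInstance, fun n => ?_⟩
  · rw [PowerSeries.coeff_map]; exact io_mem _ _ _
  · rw [PowerSeries.coeff_map]; exact io_mem' _ _ _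

theorem map_inj : Function.Injective (PowerSeries.map (io V k')) := by
  intro P Q h
  refine PowerSeries.ext fun n => ?_
  apply io_inj V k'
  rw [← PowerSeries.coeff_map, ← PowerSeries.coeff_map, h]

theorem map_lift {P : PowerSeries κ} (h1 : ∀ n, PowerSeries.coeff n P ∈ V)
    (h2 : ∀ n, PowerSeries.coeff n P ∈ k') :
    ∃ Q : PowerSeries (Ok V k'), PowerSeries.map (io V k') Q = P := by
  choose c hc using fun n => io_lift V k' (h1 n) (h2 n)
  refine ⟨PowerSeries.mk c, ?_⟩
  ext n
  rw [PowerSeries.coeff_map, PowerSeries.coeff_mk, hc]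

/-- `E0` is the union of the rings of power series over `Ok V k'` -/
theorem lift_of_mem {P : PowerSeries κ} (hP : P ∈ E0 k V) :
    ∃ k' : IntermediateField k κ, FiniteDimensional k k' ∧ ∀ k'' : IntermediateField k κ,
      k' ≤ k'' → ∃ Q : PowerSeries (Ok V k''), PowerSeries.map (io V k'') Q = P := by
  obtain ⟨h1, k', h2, h3⟩ := hP
  exact ⟨k', h2, fun k'' h => map_lift V k'' h1 fun n => h (h3 n)⟩

theorem C_mem [Algebra.IsAlgebraic k κ] {c : κ} (hc : c ∈ V) :
    (PowerSeries.C c : PowerSeries κ) ∈ E0 k V := by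
  refine ⟨fun n => ?_, IntermediateField.adjoin k {c}, ?_, fun n => ?_⟩
  · rw [PowerSeries.coeff_C]; split_ifs
    · exact hc
    · exact zero_mem _
  · exact IntermediateField.adjoin.finiteDimensional (Algebra.IsIntegral.isIntegral c)
  · rw [PowerSeries.coeff_C]; split_ifs
    · exact IntermediateField.mem_adjoin_simple_self k c
    · exact zero_mem _

theorem X_mem : (PowerSeries.X : PowerSeries κ) ∈ E0 k V := by
  refine ⟨fun n => ?_, ⊥, inferInstance, fun n => ?_⟩
  · rw [PowerSeries.coeff_X]; split_ifs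
    · exact one_mem _
    · exact zero_mem _
  · rw [PowerSeries.coeff_X]; split_ifs
    · exact one_mem _
    · exact zero_mem _

end

end Pool.Agent.Y692.PS
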