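import Pool.Agent.Y692.PS.Lft

/-!
# The place of the fraction field given by a prime element (helper692, job PS-DISC)
-/

set_option autoImplicit false
set_option linter.all false

open FF

namespace Pool.Agent.Y692.PS

section

variable {κ D E : Type} [Field κ] [CommRing D] [IsDomain D] [Field E] [Algebra D E]
  [IsFractionRing D E] [Algebra κ E]

theorem mult_mul {π : D} (hπ : Prime π) (hf : ∀ a : D, a ≠ 0 → FiniteMultiplicity π a)
    {a b : D} (ha : a ≠ 0) (hb : b ≠ 0) :
    multiplicity π (a * b) = multiplicity π a + multiplicity π b :=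
  multiplicity_mul hπ (hf _ (mul_ne_zero ha hb))

theorem place_of_prime (π : D) (hπ : Prime π) (hf : ∀ a : D, a ≠ 0 → FiniteMultiplicity π a)
    (hc : ∀ c : κ, c ≠ 0 → ∃ a b : D, a ≠ 0 ∧ b ≠ 0 ∧ ¬ π ∣ a ∧ ¬ π ∣ b ∧
      algebraMap κ E c = algebraMap D E a / algebraMap D E b) :
    ∃ P : Place κ E, ∀ a b : D, a ≠ 0 → b ≠ 0 →
      P.ord (algebraMap D E a / algebraMap D E b) =
        (multiplicity π a : ℤ) - (multiplicity π b : ℤ) := by
  classical
  have hinj : Function.Injective (algebraMap D E) := IsFractionRing.injective D E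
  have h0 : ∀ a : D, a ≠ 0 → algebraMap D E a ≠ 0 := fun a ha h =>
    ha (hinj (by rw [h, map_zero]))
  have hs : ∀ z : E, z ≠ 0 → ∃ a b : D, a ≠ 0 ∧ b ≠ 0 ∧ z = algebraMap D E a / algebraMap D E b := by
    intro z hz
    obtain ⟨a, b, hb, hab⟩ := IsFractionRing.div_surjective (A := D) z
    refine ⟨a, b, ?_, nonZeroDivisors.ne_zero hb, hab.symm⟩
    rintro rfl
    rw [map_zero, zero_div] at hab
    exact hz hab.symm
  have hwd : ∀ a b a' b' : D, a ≠ 0 → b ≠ 0 → a' ≠ 0 → b' ≠ 0 →
      algebraMap D E a / algebraMap D E b = algebraMap D E a' / algebraMap D E b' →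
      (multiplicity π a : ℤ) - (multiplicity π b : ℤ) =
        (multiplicity π a' : ℤ) - (multiplicity π b' : ℤ) := by
    intro a b a' b' ha hb ha' hb' h
    rw [div_eq_div_iff (h0 _ hb) (h0 _ hb'), ← map_mul, ← map_mul] at h
    have h1 := congrArg (multiplicity π) (hinj h)
    rw [mult_mul hπ hf ha hb', mult_mul hπ hf ha' hb] at h1
    omega
  choose nu de hnu hde hz using hs
  let ord : E → ℤ := fun z => if h : z = 0 then 0 else
    (multiplicity π (nu z h) : ℤ) - (multiplicity π (de z h) : ℤ)
  have hord : ∀ a b : D, a ≠ 0 → b ≠ 0 → ord (algebraMap D E a / algebraMap D E b) =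
      (multiplicity π a : ℤ) - (multiplicity π b : ℤ) := by
    intro a b ha hb
    have hne : algebraMap D E a / algebraMap D E b ≠ 0 := div_ne_zero (h0 _ ha) (h0 _ hb)
    show (if h : _ = 0 then 0 else _) = _
    rw [dif_neg hne]
    exact hwd _ _ _ _ (hnu _ _) (hde _ _) ha hb (hz _ hne).symm
  refine ⟨⟨ord, ?_, ?_, ?_, ?_, ?_⟩, hord⟩
  · show (if h : (0 : E) = 0 then (0 : ℤ) else _) = 0
    rw [dif_pos rfl]
  · intro f g hf' hg'
    rw [hz f hf', hz g hg', hord _ _ (hnu _ _) (hde _ _), hord _ _ (hnu _ _) (hde _ _),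
      div_mul_div_comm, ← map_mul, ← map_mul,
      hord _ _ (mul_ne_zero (hnu _ _) (hnu _ _)) (mul_ne_zero (hde _ _) (hde _ _)),
      mult_mul hπ hf (hnu _ _) (hnu _ _), mult_mul hπ hf (hde _ _) (hde _ _)]
    push_cast
    ring
  · intro f g hf' hg' hfg
    have hb := h0 _ (hde f hf')
    have hd := h0 _ (hde g hg')
    have e1 : f = algebraMap D E (nu f hf' * de g hg') / algebraMap D E (de f hf' * de g hg') := by
      conv_lhs => rw [hz f hf']
      rw [map_mul, map_mul, mul_div_mul_right _ _ hd]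
    have e2 : g = algebraMap D E (nu g hg' * de f hf') / algebraMap D E (de f hf' * de g hg') := by
      conv_lhs => rw [hz g hg']
      rw [map_mul, map_mul, mul_comm (algebraMap D E (de f hf')), mul_div_mul_right _ _ hb]
    have e3 : f + g = algebraMap D E (nu f hf' * de g hg' + nu g hg' * de f hf') /
        algebraMap D E (de f hf' * de g hg') := by
      refine (congrArg₂ (fun u v => u + v) e1 e2).trans ?_
      show _ / _ + _ / _ = _
      rw [← add_div, ← map_add]
    have hA := mul_ne_zero (hnu f hf') (hde g hg')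
    have hB := mul_ne_zero (hnu g hg') (hde f hf')
    have hC := mul_ne_zero (hde f hf') (hde g hg')
    have hS : nu f hf' * de g hg' + nu g hg' * de f hf' ≠ 0 := by
      intro h
      rw [h, map_zero, zero_div] at e3
      exact hfg e3
    have o1 := hord _ _ hA hC
    rw [← e1] at o1
    have o2 := hord _ _ hB hC
    rw [← e2] at o2
    have o3 := hord _ _ hS hC
    rw [← e3] at o3
    rw [o1, o2, o3]
    have h5 : min (multiplicity π (nu f hf' * de g hg')) (multiplicity π (nu g hg' * de f hf')) ≤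
        multiplicity π (nu f hf' * de g hg' + nu g hg' * de f hf') := by
      apply (hf _ hS).le_multiplicity_of_pow_dvd
      exact dvd_add ((pow_dvd_pow _ (min_le_left _ _)).trans (pow_multiplicity_dvd _ _))
        ((pow_dvd_pow _ (min_le_right _ _)).trans (pow_multiplicity_dvd _ _))
    omega
  · intro c hc0
    obtain ⟨a, b, ha, hb, hpa, hpb, he⟩ := hc c hc0
    show ord _ = 0
    rw [he, hord a b ha hb, multiplicity_eq_zero.2 hpa, multiplicity_eq_zero.2 hpb]
    simp
  · refine ⟨algebraMap D E π, h0 _ hπ.ne_zero, ?_⟩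
    have h1 := hord π 1 hπ.ne_zero one_ne_zero
    rw [map_one, div_one] at h1
    show ord _ = 1
    rw [h1, multiplicity_self, multiplicity_eq_zero.2 (fun h => hπ.not_unit (isUnit_of_dvd_one h))]
    simp

end

end Pool.Agent.Y692.PS
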